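import Pool.Agent.Helper79.RG.Bridge

/-!
# Moments over the primes of the sum of the reciprocal gaps

For every real `s ≥ 1` the sum of `f(p)^s` over the primes `p < x` is at least
`(1 - o(1)) π(x)` and at most a constant times `π(x)`.
-/

set_option autoImplicit false

open N5dc7309f
open Filter
open scoped Nat.Prime

namespace Pool.Agent.Results.MP_3341c6_nt.MomentBounds

/-- For every real `s ≥ 1` there is a constant `C` such that for every `ε > 0` and all large `x`
one has `(1 - ε) π(x) ≤ ∑_{p < x} f(p)^s ≤ C π(x)`. -/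
theorem result (s : ℝ) (hs : 1 ≤ s) :
    ∃ C : ℝ, ∀ ε : ℝ, 0 < ε → ∀ᶠ x : ℕ in atTop,
      (1 - ε) * (π x : ℝ) ≤ ∑ p ∈ (Finset.range x).filter Prime, f p ^ s ∧
      ∑ p ∈ (Finset.range x).filter Prime, f p ^ s ≤ C * (π x : ℝ) := by
  obtain ⟨C, hC, h⟩ := Pool.Agent.Helper79.RG.moment_upper (s := s) (by linarith)
  refine ⟨C, ?_⟩
  intro ε hε
  filter_upwards [h, Pool.Agent.Helper79.RG.lower_moment hs (half_pos hε),
    Pool.Agent.Helper79.RG.pi_le_NP (half_pos hε)] with x h1 h2 h3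
  have e : ∑ p ∈ (Finset.range x).filter Prime, f p ^ s =
      ∑ p ∈ Pool.Agent.Helper79.RG.PR x, Pool.Agent.Helper79.RG.f p ^ s := by
    rw [Pool.Agent.Helper79.RG.filter_eq]
    exact Finset.sum_congr rfl fun p _ => by rw [Pool.Agent.Helper79.RG.f_eq_f]
  rw [e]
  have h4 := Pool.Agent.Helper79.RG.NP_le_pi x
  have h5 := mul_le_mul_of_nonneg_left h4 hC.le
  have h6 := mul_le_mul_of_nonneg_left h4 hε.le
  constructor <;> linarith

end Pool.Agent.Results.MP_3341c6_nt.MomentBounds
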