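import Pool.Agent.Helper79.RG.Bridge

/-!
# The second moment asymptotic is equivalent to the prime number theorem in almost all short
intervals

The asymptotic formula of Erdos, the same formula for the first moment (or for any one moment
of order at least one, or for all of them), the assertion that almost no prime `p` has
`f(p) > 1 + η`, and the prime number theorem for almost all intervals of length `x ^ δ`,
for every `δ > 0`, are all equivalent.
-/

set_option autoImplicit false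

open N5dc7309f
open Filter Topology
open scoped Asymptotics Nat.Prime

namespace Pool.Agent.Results.MP_3341c6_nt.ShortIntervals

/-- The following are equivalent:
(1) the sum of `f(p)^2` over the primes `p < x` is asymptotic to `π(x)` (the question);
(2) the sum of `f(p)` over the primes `p < x` is asymptotic to `π(x)`;
(3) for some real `s ≥ 1` the sum of `f(p)^s` is asymptotic to `π(x)`;
(4) for every function `φ`, continuous at `1` and of polynomial growth, the mean of `φ(f(p))`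
over the primes `p < x` tends to `φ(1)`;
(5) for every `η > 0` the number of primes `p < x` with `f(p) > 1 + η` is `o(π(x))`;
(6) for every `η > 0` the number of primes `p < x` with `|f(p) - 1| > η` is `o(π(x))`;
(7) for every `0 < δ < 1` and `η > 0`, all but `o(x)` of the `n < x` are such that `(n, n + h]`,
`h = ⌊x ^ δ⌋`, contains at least `(1 - η) h / log x` primes;
(8) the same with the number of primes between `(1 - η) h / log x` and `(1 + η) h / log x`;
(9) the mean square over `n < x` of the relative error of the number of primes in `(n, n + h]`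
tends to zero, for every `0 < δ < 1`. -/
theorem result : List.TFAE [
    (fun x : ℕ ↦ ∑ p ∈ (Finset.range x).filter Prime, (f p) ^ 2) ~[atTop] fun x ↦ (π x : ℝ),
    (fun x : ℕ ↦ ∑ p ∈ (Finset.range x).filter Prime, f p) ~[atTop] fun x ↦ (π x : ℝ),
    ∃ s : ℝ, 1 ≤ s ∧
      (fun x : ℕ ↦ ∑ p ∈ (Finset.range x).filter Prime, (f p) ^ s) ~[atTop] fun x ↦ (π x : ℝ),
    ∀ φ : ℝ → ℝ, ContinuousAt φ 1 →
      (∃ (C : ℝ) (k : ℕ), ∀ t : ℝ, 0 ≤ t → |φ t| ≤ C * (1 + t ^ k)) →
      Tendsto (fun x : ℕ ↦ (∑ p ∈ (Finset.range x).filter Prime, φ (f p)) / (π x : ℝ))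
        atTop (𝓝 (φ 1)),
    ∀ η : ℝ, 0 < η →
      (fun x : ℕ ↦ (((Finset.range x).filter (fun p ↦ Prime p ∧ 1 + η < f p)).card : ℝ))
        =o[atTop] fun x ↦ (π x : ℝ),
    ∀ η : ℝ, 0 < η →
      (fun x : ℕ ↦ (((Finset.range x).filter (fun p ↦ Prime p ∧ η < |f p - 1|)).card : ℝ))
        =o[atTop] fun x ↦ (π x : ℝ),
    ∀ δ : ℝ, 0 < δ → δ < 1 → ∀ η : ℝ, 0 < η →
      Tendsto (fun x : ℕ ↦ (((Finset.range x).filter (fun n ↦
        ((π (n + ⌊(x : ℝ) ^ δ⌋₊) : ℝ) - π n) * Real.log x / (⌊(x : ℝ) ^ δ⌋₊ : ℝ)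
          < 1 - η)).card : ℝ) / x) atTop (𝓝 0),
    ∀ δ : ℝ, 0 < δ → δ < 1 → ∀ η : ℝ, 0 < η →
      Tendsto (fun x : ℕ ↦ (((Finset.range x).filter (fun n ↦
        η < |((π (n + ⌊(x : ℝ) ^ δ⌋₊) : ℝ) - π n) * Real.log x / (⌊(x : ℝ) ^ δ⌋₊ : ℝ)
          - 1|)).card : ℝ) / x) atTop (𝓝 0),
    ∀ δ : ℝ, 0 < δ → δ < 1 →
      Tendsto (fun x : ℕ ↦ (∑ n ∈ Finset.range x,
        (((π (n + ⌊(x : ℝ) ^ δ⌋₊) : ℝ) - π n) * Real.log x / (⌊(x : ℝ) ^ δ⌋₊ : ℝ)
          - 1) ^ 2) / (x : ℝ)) atTop (𝓝 0)] := by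
  have h1 := Pool.Agent.Helper79.RG.second_iff
  have h2 := Pool.Agent.Helper79.RG.first_iff
  have h4 := Pool.Agent.Helper79.RG.phi_iff
  have h5 := Pool.Agent.Helper79.RG.upper_iff
  have h6 := Pool.Agent.Helper79.RG.both_iff
  have h7 := Pool.Agent.Helper79.RG.SL_iff
  have h8 := Pool.Agent.Helper79.RG.SA_iff
  have h9 := Pool.Agent.Helper79.RG.S2_iff
  tfae_have 1 ↔ 2 := h1.trans h2.symm
  tfae_have 3 → 2 := by
    rintro ⟨s, hs, h⟩
    exact h2.mpr ((Pool.Agent.Helper79.RG.rpow_iff hs).mp h)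
  tfae_have 2 → 3 := by
    intro h
    exact ⟨1, le_rfl, (Pool.Agent.Helper79.RG.rpow_iff le_rfl).mpr (h2.mp h)⟩
  tfae_have 4 ↔ 2 := h4.trans h2.symm
  tfae_have 5 ↔ 2 := h5.trans h2.symm
  tfae_have 6 ↔ 2 := h6.trans h2.symm
  tfae_have 7 ↔ 2 := h7.trans h2.symm
  tfae_have 8 ↔ 2 := h8.trans h2.symm
  tfae_have 9 ↔ 2 := h9.trans h2.symm
  tfae_finish

end Pool.Agent.Results.MP_3341c6_nt.ShortIntervals
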